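import Mathlib
import Pool.Agent.R259.Rom3

/-!
# MP_e4dd62_an, Q1: `β₀ > α₀`

`τ_α(ξ) = 1 - |ξ|^α` on `[-1,1]`; `β₀` is the supremum of all `α > 0` such that `τ_α` is the
restriction of a positive definite function on `ℝ`; `α₀` (Romanov's number) is the zero in
`(1,2)` of `ρ(α) = ∫_0^{3π/2} cos t / t^{2-α} dt`.  We prove `β₀ > α₀`.

Idea.  Romanov's extension is the `4`-periodic, `2`-antiperiodic one; its `k`-th cosine
coefficient (`k` odd) is a positive multiple of `∫_0^{πk/2} t^{α-2} cos t dt`.  At `α = α₀` the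
coefficient for `k = 3` vanishes and all the others are bounded below.  For `α` slightly larger
than `α₀` we subtract `η (1 + cos 3πξ)` (`η > 0` small) before taking the antiperiodic extension:
this makes the third coefficient nonnegative, destroys none of the others, and
`η (1 + cos 3πξ)` is itself positive definite.
-/

set_option autoImplicit false

namespace Pool.Agent.Results.MP_e4dd62_an.BetaGtRomanov

open MeasureTheory Set Filter Topology
open Pool.Agent.R259.Rom

/-- `φ : ℝ → ℂ` is positive definite: `φ(ξ) = ∫ e^{iξx} dμ(x)` for some finite nonnegative Borel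
measure `μ` on `ℝ`. -/
def PosDef (φ : ℝ → ℂ) : Prop :=
  ∃ μ : Measure ℝ, IsFiniteMeasure μ ∧
    ∀ ξ : ℝ, φ ξ = ∫ x : ℝ, Complex.exp (Complex.I * ξ * x) ∂μ

/-- `τ` is positive definite on `[-1,1]`: it is the restriction to `[-1,1]` of a positive definite
function on `ℝ`. -/
def PosDefOnUnit (τ : ℝ → ℝ) : Prop :=
  ∃ φ : ℝ → ℂ, PosDef φ ∧ ∀ ξ ∈ Icc (-1 : ℝ) 1, φ ξ = (τ ξ : ℂ)

/-- `τ_α(ξ) = 1 - |ξ|^α`. -/
noncomputable def tau (α ξ : ℝ) : ℝ := 1 - |ξ| ^ α

/-- the set of `α > 0` such that `τ_α` is positive definite on `[-1,1]` -/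
def admissible : Set ℝ := {α : ℝ | 0 < α ∧ PosDefOnUnit (tau α)}

/-- `β₀ = sup {α > 0 : τ_α is positive definite on [-1,1]}`. -/
noncomputable def beta0 : ℝ := sSup admissible

/-- `ρ(α) = ∫_0^{3π/2} cos t / t^{2-α} dt`. -/
noncomputable def rho (α : ℝ) : ℝ :=
  ∫ t in (0 : ℝ)..(3 * Real.pi / 2), Real.cos t / t ^ (2 - α)

lemma om_one : om 1 = 3 * Real.pi / 2 := by unfold om; push_cast; ring

lemma rho_eq (α : ℝ) : rho α = J (2 - α) (om 1) := by
  unfold rho J
  rw [om_one]
  have hpi := Real.pi_pos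
  apply intervalIntegral.integral_congr
  intro t ht
  rw [uIcc_of_le (by positivity)] at ht
  simp only
  rw [Real.rpow_neg ht.1]
  ring

/-- the admissible exponents are bounded by `2` -/
lemma admissible_le {α : ℝ} (h : α ∈ admissible) : α ≤ 2 := by
  obtain ⟨h0, φ, ⟨μ, hμ, hφ⟩, hτ⟩ := h
  have hre : ∀ ξ ∈ Icc (-1 : ℝ) 1, 1 - |ξ| ^ α = ∫ x : ℝ, Real.cos (ξ * x) ∂μ := by
    intro ξ hξ
    have h1 := hτ ξ hξ
    rw [hφ ξ] at h1
    have h2 := congrArg Complex.re h1
    unfold tau at h2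
    rw [Complex.ofReal_re] at h2
    rw [← h2]
    have h3 := integral_re (exp_integrable ξ μ)
    have h4 : ∀ x : ℝ, RCLike.re (Complex.exp (Complex.I * ξ * x)) = Real.cos (ξ * x) := by
      intro x
      have : Complex.I * (ξ : ℂ) * x = ((ξ * x : ℝ) : ℂ) * Complex.I := by push_cast; ring
      rw [this]
      exact Complex.exp_ofReal_mul_I_re _
    simp_rw [h4] at h3
    rw [h3]
    rfl
  have hm := hre 0 (by norm_num)
  have h1 := hre 1 (by norm_num)
  have h2 := hre (1 / 2) (by norm_num)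
  have hz : (0 : ℝ) ^ α = 0 := Real.zero_rpow h0.ne'
  simp only [abs_zero, hz, sub_zero, zero_mul, Real.cos_zero] at hm
  simp only [abs_one, Real.one_rpow, sub_self] at h1
  have hci : ∀ ξ : ℝ, Integrable (fun x : ℝ => Real.cos (ξ * x)) μ := by
    intro ξ
    refine (integrable_const (1 : ℝ)).mono' (by fun_prop) ?_
    exact Eventually.of_forall fun x => Real.abs_cos_le_one _
  have hmono : ∫ x : ℝ, (1 - Real.cos (1 * x)) ∂μ ≤ ∫ x : ℝ, 4 * (1 - Real.cos (1 / 2 * x)) ∂μ := by
    apply integral_mono ((integrable_const _).sub (hci 1))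
      (((integrable_const _).sub (hci (1 / 2))).const_mul 4)
    intro x
    show 1 - Real.cos (1 * x) ≤ 4 * (1 - Real.cos (1 / 2 * x))
    have e : (1 : ℝ) * x = 2 * (1 / 2 * x) := by ring
    rw [e, Real.cos_two_mul]
    have h3 := Real.cos_le_one (1 / 2 * x)
    have h4 := Real.neg_one_le_cos (1 / 2 * x)
    nlinarith
  rw [integral_sub (integrable_const _) (hci 1), integral_const_mul,
    integral_sub (integrable_const _) (hci (1 / 2)), ← h1, ← h2, ← hm] at hmono
  have h5 : |(1 / 2 : ℝ)| ^ α = (2 ^ α)⁻¹ := by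
    rw [abs_of_pos (by norm_num), one_div, Real.inv_rpow (by norm_num)]
  rw [h5] at hmono
  have h6 : (2 : ℝ) ^ α ≤ 4 := by
    have h7 : (0 : ℝ) < 2 ^ α := by positivity
    have h8 : 1 ≤ 4 * ((2 : ℝ) ^ α)⁻¹ := by linarith
    rw [← div_eq_mul_inv, le_div_iff₀ h7] at h8
    linarith
  have h9 : (2 : ℝ) ^ α ≤ 2 ^ (2 : ℝ) := by
    refine h6.trans_eq ?_
    norm_num
  exact (Real.rpow_le_rpow_left_iff (by norm_num)).1 h9

lemma admissible_bddAbove : BddAbove admissible := ⟨2, fun _ h => admissible_le h⟩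

lemma admissible_of {α : ℝ} (h1 : 1 < α) (h2 : α < 2)
    (hK : 18 * Real.pi * |J (2 - α) (om 1)| ≤ J (2 - α) (om 3)) : α ∈ admissible := by
  obtain ⟨φ, hφ, h⟩ := posDef_tau h1 h2 hK
  exact ⟨by linarith, φ, hφ, fun ξ hξ => by rw [h ξ hξ]; rfl⟩

/-- main inequality -/
lemma lt_beta0 {a : ℝ} (h1 : 1 < a) (h2 : a < 2) (hr : rho a = 0) : a < beta0 := by
  have hs0 : 0 < 2 - a := by linarith
  have hs1 : 2 - a < 1 := by linarith
  rw [rho_eq] at hr
  have hpos : 0 < J (2 - a) (om 3) := by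
    have e1 := J_step hs1 1
    have e2 := J_step hs1 2
    have e3 := c_strict hs0 1
    have e4 : (1 : ℕ) + 1 = 2 := rfl
    have e5 : (2 : ℕ) + 1 = 3 := rfl
    rw [e4] at e1 e3
    rw [e5] at e2
    rw [hr] at e1
    norm_num at e1 e2
    linarith
  have hc : ContinuousAt (fun s => J s (om 3) - 18 * Real.pi * |J s (om 1)|) (2 - a) := by
    have c3 := J_continuousAt (om_pos 3).le hs1
    have c1 := J_continuousAt (om_pos 1).le hs1
    exact c3.sub (continuousAt_const.mul c1.abs)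
  have hg : (0 : ℝ) < J (2 - a) (om 3) - 18 * Real.pi * |J (2 - a) (om 1)| := by
    rw [hr, abs_zero, mul_zero, sub_zero]; exact hpos
  have hev : ∀ᶠ s in 𝓝 (2 - a), 0 < J s (om 3) - 18 * Real.pi * |J s (om 1)| :=
    hc.eventually (lt_mem_nhds hg)
  have hev2 : ∀ᶠ s in 𝓝[<] (2 - a), 0 < J s (om 3) - 18 * Real.pi * |J s (om 1)| :=
    hev.filter_mono nhdsWithin_le_nhds
  have hev3 : ∀ᶠ s in 𝓝[<] (2 - a), s ∈ Ioo 0 (2 - a) := Ioo_mem_nhdsLT hs0
  obtain ⟨s, hs, hs'⟩ := (hev2.and hev3).exists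
  have h3 : 2 - s ∈ admissible := by
    apply admissible_of (by linarith [hs'.2]) (by linarith [hs'.1])
    rw [show 2 - (2 - s) = s by ring]
    linarith
  have h4 := le_csSup admissible_bddAbove h3
  have h5 := hs'.2
  unfold beta0
  linarith

/-! ### existence and uniqueness of Romanov's number -/

lemma rho_two : rho 2 = -1 := by
  rw [rho_eq, om_one]
  unfold J
  have : ∀ t : ℝ, t ^ (-(2 - 2 : ℝ)) * Real.cos t = Real.cos t := by
    intro t
    norm_num
  simp_rw [this]
  rw [integral_cos, Real.sin_zero, sub_zero]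
  have : (3 : ℝ) * Real.pi / 2 = Real.pi / 2 + Real.pi := by ring
  rw [this, Real.sin_add_pi, Real.sin_pi_div_two]

lemma rho_pos : 0 < rho (6 / 5) := by
  rw [rho_eq]
  have hs1 : (2 - 6 / 5 : ℝ) < 1 := by norm_num
  have e1 := J_step hs1 0
  simp only [zero_add, pow_zero, one_mul] at e1
  rw [e1]
  have hpi := Real.pi_gt_three
  have hc : c (2 - 6 / 5) 0 ≤ 2 := by
    have h : c (2 - 6 / 5) 0 ≤ ∫ t in (0 : ℝ)..Real.pi, Real.sin t := by
      unfold c
      apply intervalIntegral.integral_mono_on Real.pi_pos.le (c_int _ _)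
        (Real.continuous_sin.intervalIntegrable _ _)
      intro t ht
      have h1 := Real.sin_nonneg_of_nonneg_of_le_pi ht.1 ht.2
      apply mul_le_of_le_one_left h1
      apply Real.rpow_le_one_of_one_le_of_nonpos
      · have := om_one_le 0
        linarith [ht.1]
      · norm_num
    refine h.trans_eq ?_
    rw [integral_sin, Real.cos_zero, Real.cos_pi]
    norm_num
  have hJ : 5 / 2 ≤ J (2 - 6 / 5) (om 0) := by
    have e0 : om 0 = Real.pi / 2 := by unfold om; simp
    rw [e0]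
    unfold J
    rw [← intervalIntegral.integral_add_adjacent_intervals (J_int hs1 0 1)
      (J_int hs1 1 (Real.pi / 2))]
    have h1 : 0 ≤ ∫ t in (1 : ℝ)..(Real.pi / 2), t ^ (-(2 - 6 / 5 : ℝ)) * Real.cos t := by
      apply intervalIntegral.integral_nonneg (by linarith)
      intro t ht
      apply mul_nonneg (Real.rpow_nonneg (by linarith [ht.1]) _)
      exact Real.cos_nonneg_of_mem_Icc ⟨by linarith [ht.1], ht.2⟩
    have h2 : 5 / 2 ≤ ∫ t in (0 : ℝ)..1, t ^ (-(2 - 6 / 5 : ℝ)) * Real.cos t := by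
      have h3 : ∫ t in (0 : ℝ)..1, t ^ (-(2 - 6 / 5 : ℝ)) * (1 / 2) = 5 / 2 := by
        rw [intervalIntegral.integral_mul_const, integral_rpow (Or.inl (by norm_num))]
        have : (0 : ℝ) ^ (-(2 - 6 / 5 : ℝ) + 1) = 0 := Real.zero_rpow (by norm_num)
        rw [this]
        norm_num
      rw [← h3]
      apply intervalIntegral.integral_mono_on (by norm_num) _ (J_int hs1 0 1)
      · intro t ht
        apply mul_le_mul_of_nonneg_left _ (Real.rpow_nonneg ht.1 _)
        have := Real.one_sub_sq_div_two_le_cos (x := t)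
        nlinarith [ht.1, ht.2]
      · exact (intervalIntegral.intervalIntegrable_rpow' (by norm_num)).mul_const _
    linarith
  linarith

lemma rho_unique {s s' : ℝ} (hlt : s < s') (h1 : s' < 1)
    (hs : J s (om 1) = 0) (hs' : J s' (om 1) = 0) : False := by
  have hpi := Real.pi_pos
  set R : ℝ → ℝ → ℝ := fun s t => (2 * t / Real.pi) ^ (-s) * Real.cos t with hR
  have hRJ : ∀ s < 1, ∀ a b : ℝ, 0 ≤ a → a ≤ b →
      IntervalIntegrable (R s) volume a b ∧
      ∫ t in a..b, R s t = (2 / Real.pi) ^ (-s) * ∫ t in a..b, t ^ (-s) * Real.cos t := by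
    intro s hs a b ha hab
    have heq : ∀ t ∈ uIcc a b, R s t = (2 / Real.pi) ^ (-s) * (t ^ (-s) * Real.cos t) := by
      intro t ht
      rw [uIcc_of_le hab] at ht
      simp only [hR]
      rw [show 2 * t / Real.pi = 2 / Real.pi * t by ring,
        Real.mul_rpow (by positivity) (ha.trans ht.1)]
      ring
    constructor
    · refine ((J_int hs a b).const_mul ((2 / Real.pi) ^ (-s))).congr ?_
      intro t ht
      exact (heq t (uIoc_subset_uIcc ht)).symm
    · rw [← intervalIntegral.integral_const_mul]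
      exact intervalIntegral.integral_congr heq
  have hom : om 1 = 3 * Real.pi / 2 := om_one
  have hi := (hRJ s (by linarith) 0 (Real.pi / 2) le_rfl (by positivity)).1
  have hi' := (hRJ s' h1 0 (Real.pi / 2) le_rfl (by positivity)).1
  have hj := (hRJ s (by linarith) (Real.pi / 2) (om 1) (by positivity) (by rw [hom]; linarith)).1
  have hj' := (hRJ s' h1 (Real.pi / 2) (om 1) (by positivity) (by rw [hom]; linarith)).1
  have hA : 0 < ∫ t in (0 : ℝ)..(Real.pi / 2), (R s' t - R s t) := by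
    apply intervalIntegral.intervalIntegral_pos_of_pos_on (hi'.sub hi) _ (by positivity)
    intro t ht
    simp only [hR]
    have hc : 0 < Real.cos t := Real.cos_pos_of_mem_Ioo ⟨by linarith [ht.1], ht.2⟩
    have hT0 : 0 < 2 * t / Real.pi := by have := ht.1; positivity
    have hT1 : 2 * t / Real.pi < 1 := by
      rw [div_lt_one hpi]; linarith [ht.2]
    have := Real.rpow_lt_rpow_of_exponent_gt hT0 hT1 (show -s' < -s by linarith)
    have := mul_lt_mul_of_pos_right this hc
    linarith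
  have hB : 0 ≤ ∫ t in (Real.pi / 2)..(om 1), (R s' t - R s t) := by
    apply intervalIntegral.integral_nonneg (by rw [hom]; linarith)
    intro t ht
    simp only [hR]
    rw [hom] at ht
    have hc : Real.cos t ≤ 0 := Real.cos_nonpos_of_pi_div_two_le_of_le ht.1 (by linarith [ht.2])
    have hT1 : 1 ≤ 2 * t / Real.pi := by
      rw [le_div_iff₀ hpi]; linarith [ht.1]
    have := Real.rpow_le_rpow_of_exponent_le hT1 (show -s' ≤ -s by linarith)
    have := mul_le_mul_of_nonpos_right this hc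
    linarith
  have hsum : ∫ t in (0 : ℝ)..(om 1), (R s' t - R s t) = 0 := by
    have ha := hRJ s (by linarith) 0 (om 1) le_rfl (om_pos 1).le
    have hb := hRJ s' h1 0 (om 1) le_rfl (om_pos 1).le
    rw [intervalIntegral.integral_sub hb.1 ha.1, ha.2, hb.2]
    have e1 : ∫ t in (0 : ℝ)..(om 1), t ^ (-s) * Real.cos t = 0 := hs
    have e2 : ∫ t in (0 : ℝ)..(om 1), t ^ (-s') * Real.cos t = 0 := hs'
    rw [e1, e2]; ring
  rw [← intervalIntegral.integral_add_adjacent_intervals (hi'.sub hi) (hj'.sub hj)] at hsum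
  linarith

lemma exists_romanov : ∃! a : ℝ, (1 < a ∧ a < 2) ∧ rho a = 0 := by
  have hcont : ContinuousOn rho (Icc (6 / 5) 2) := by
    intro a ha
    apply ContinuousAt.continuousWithinAt
    have h1 : (2 - a) < 1 := by linarith [ha.1]
    have h2 := J_continuousAt (om_pos 1).le h1
    have h3 : ContinuousAt (fun a : ℝ => J (2 - a) (om 1)) a :=
      ContinuousAt.comp (g := fun s => J s (om 1)) (f := fun a : ℝ => 2 - a) h2 (by fun_prop)
    have h4 : rho = fun a : ℝ => J (2 - a) (om 1) := by ext a; exact rho_eq a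
    rw [h4]; exact h3
  have hiv := intermediate_value_Ioo' (by norm_num : (6 / 5 : ℝ) ≤ 2) hcont
  have h0 : (0 : ℝ) ∈ Ioo (rho 2) (rho (6 / 5)) := by
    rw [rho_two]; exact ⟨by norm_num, rho_pos⟩
  obtain ⟨a, ha, hra⟩ := hiv h0
  refine ⟨a, ⟨⟨by linarith [ha.1], ha.2⟩, hra⟩, ?_⟩
  rintro b ⟨⟨hb1, hb2⟩, hrb⟩
  by_contra hne
  rw [rho_eq] at hra hrb
  rcases lt_or_gt_of_ne hne with h | h
  · exact rho_unique (s := 2 - a) (s' := 2 - b) (by linarith) (by linarith) hra hrb
  · exact rho_unique (s := 2 - b) (s' := 2 - a) (by linarith) (by linarith [ha.1]) hrb hra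

/-- **MP_e4dd62_an, Q1 (positive answer): `β₀ > α₀`.**  The equation `ρ(α) = 0` has exactly one
solution `α₀` in `(1,2)`, the set of admissible exponents is bounded above (so that `β₀` is a
genuine supremum), and `α₀ < β₀`. -/
theorem result :
    (∃! a : ℝ, (1 < a ∧ a < 2) ∧ rho a = 0) ∧ BddAbove admissible ∧
      ∀ α₀ : ℝ, 1 < α₀ → α₀ < 2 → rho α₀ = 0 → α₀ < beta0 :=
  ⟨exists_romanov, admissible_bddAbove, fun _ h1 h2 h3 => lt_beta0 h1 h2 h3⟩

end Pool.Agent.Results.MP_e4dd62_an.BetaGtRomanov
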